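import Pool.Agent.H720Z.TY.Main

/-!
# A closed embedded minimal submanifold `M^9` of `S^13` with `λ₁ < 9`
-/

namespace Pool.Agent.Results.MP_b0f4c2_gt.Counterexample

open Pool.Agent.H720Z.TY

/-- There are `n`, `d` with `d ≥ (2/3) n + 1` and a compact connected embedded `d`-dimensional
minimal submanifold `M` without boundary of the unit sphere `S^(n+1)` of `ℝ^(n+2)` whose Laplace
operator has an eigenvalue `μ` with `0 < μ < d`; so `λ₁(M) ≤ μ < d`. -/
theorem result : ∃ (n d : ℕ) (M : Set (E (n + 2))) (μ : ℝ),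
    (2 / 3 : ℝ) * n + 1 ≤ d ∧ IsCompact M ∧ IsConnected M ∧ M ⊆ Metric.sphere 0 1 ∧
    IsSubmanifold d M ∧ IsMinimalInSphere d M ∧ IsEigenvalue d M μ ∧ 0 < μ ∧ μ < d :=
  ⟨12, 9, MM, 9 / 4, by norm_num, main.1, main.2.1, main.2.2.1, main.2.2.2.1, main.2.2.2.2.1,
    main.2.2.2.2.2, by norm_num, by norm_num⟩

end Pool.Agent.Results.MP_b0f4c2_gt.Counterexample
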